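import Pool.Agent.helper81.NW.Spec

/-!
# CNW (project NW): `|U| - |W| = Z`
-/

set_option autoImplicit false

namespace Pool.Agent.helper81.NW

open Pool.Agent.helper84.NR
open scoped Classical
open Finset

theorem CNW_card {α : Type} [Fintype α] (u p q r : α → Prop) (hu : ∀ e, u e ↔ (p e ∨ q e))
    (h : ∀ e, (p e ∧ q e) ↔ r e) : ((univ.filter (fun e => u e)).card : ℤ) =
      ((univ.filter (fun e => p e)).card : ℤ) + ((univ.filter (fun e => q e)).card : ℤ) -
        ((univ.filter (fun e => r e)).card : ℤ) := by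
  have h1 := Finset.card_union_add_card_inter (univ.filter (fun e => p e)) (univ.filter (fun e => q e))
  have h2 : univ.filter (fun e => p e) ∪ univ.filter (fun e => q e) = univ.filter (fun e => u e) := by
    ext e
    simp [hu e]
  have h3 : univ.filter (fun e => p e) ∩ univ.filter (fun e => q e) = univ.filter (fun e => r e) := by
    ext e
    simp [← h e]
  rw [h2, h3] at h1
  have h4 : ((univ.filter (fun e => u e)).card : ℤ) + ((univ.filter (fun e => r e)).card : ℤ) =
      ((univ.filter (fun e => p e)).card : ℤ) + ((univ.filter (fun e => q e)).card : ℤ) := by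
    exact_mod_cast h1
  linarith

theorem CNW_symm {V F : Type} (M : PMap V F) (x y : V) (h : NF M x y) : NF M y x := by
  refine ⟨fun f hf => h.ne f ⟨hf.2, hf.1⟩, fun s h1 h2 => ?_⟩
  have e1 : Adj M.toCyc x s := by
    unfold Adj at h2 ⊢
    rw [Sym2.eq_swap]
    exact h2
  have e2 : Adj M.toCyc s y := by
    unfold Adj at h1 ⊢
    rw [Sym2.eq_swap]
    exact h1
  exact h.ns s e1 e2

theorem CNW (hPRC : PRC_stmt) (hSEG : SEG_stmt) (hINT : INT_stmt) : CNW_stmt := by
  intro V F _ _ M x y hNF
  have p := hPRC V F M x y hNF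
  have s1 := hSEG V F M x y hNF
  have s2 := hSEG V F M y x (CNW_symm M x y hNF)
  obtain ⟨i1, i2, -⟩ := hINT V F M x y hNF.ne
  have c1 := CNW_card (fun e => UU M x y e) (fun e => sgE M x y e) (fun e => sgE M y x e)
    (fun e => she M x y e) (fun _ => Iff.rfl) i1
  have c2 := CNW_card (fun v => VV M x y v) (fun v => sgV M x y v) (fun v => sgV M y x v)
    (fun v => shv M x y v) (fun _ => Iff.rfl) i2
  rw [c1, c2]
  unfold ZZ
  rw [p]
  linarith

end Pool.Agent.helper81.NW
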